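import Pool.Agent.Helper91.PL.SBasic

/-!
# MP_bae8ce_ag : module S3, a counting lemma
-/

set_option autoImplicit false

open Finset

namespace PL

noncomputable section

variable {k : Type} [Field k] [Fintype k] [DecidableEq k] {N : ℕ}

theorem s3_sum_scale (c : Fin N → k) (hc : ∀ i, c i ≠ 0) (F : Tup N k → ℝ) :
    ∑ χ : Tup N k, F (fun i => c i • χ i) = ∑ χ, F χ := by
  exact Function.Bijective.sum_comp (e := fun (χ : Tup N k) i => c i • χ i)
    ⟨fun χ ψ h => by
      funext i
      have h1 := congrFun h i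
      simp only at h1
      exact smul_right_injective _ (hc i) h1,
    fun ψ => ⟨fun i => (c i)⁻¹ • ψ i, by
      funext i
      simp [smul_smul, mul_inv_cancel₀ (hc i)]⟩⟩ F

/-- The number of zeros of `A s t + B s + C t + E` with `A ≠ 0` and `s, t ≠ 0`. -/
theorem s3_count (A B C E : k) (hA : A ≠ 0) :
    ∑ s ∈ univ.erase (0 : k), ∑ t ∈ univ.erase (0 : k),
      (if A * s * t + B * s + C * t + E = 0 then (1 : ℝ) else 0) ≤ 2 * (qq k - 1) := by
  have hcard : ((univ.erase (0 : k)).card : ℝ) = qq k - 1 := by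
    rw [Finset.card_erase_of_mem (Finset.mem_univ _), Finset.card_univ, qq]
    have h1 : 1 ≤ Fintype.card k := Fintype.card_pos
    push_cast [h1]
    ring
  have hQ : (0 : ℝ) ≤ qq k - 1 := by
    rw [← hcard]
    positivity
  have hinner : ∀ s ∈ univ.erase (0 : k), ∑ t ∈ univ.erase (0 : k),
      (if A * s * t + B * s + C * t + E = 0 then (1 : ℝ) else 0) ≤
      1 + (if A * s + C = 0 then qq k - 1 else 0) := by
    intro s _
    by_cases h : A * s + C = 0
    · rw [if_pos h]
      calc ∑ t ∈ univ.erase (0 : k),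
          (if A * s * t + B * s + C * t + E = 0 then (1 : ℝ) else 0)
          ≤ ∑ t ∈ univ.erase (0 : k), (1 : ℝ) :=
            Finset.sum_le_sum fun t _ => by split_ifs <;> norm_num
        _ = qq k - 1 := by rw [Finset.sum_const, nsmul_eq_mul, mul_one, hcard]
        _ ≤ 1 + (qq k - 1) := by linarith
    · rw [if_neg h, add_zero]
      have h2 : ∀ t, A * s * t + B * s + C * t + E = 0 ↔ t = -(B * s + E) / (A * s + C) := by
        intro t
        rw [eq_div_iff h]
        constructor
        · intro h3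
          linear_combination h3
        · intro h3
          linear_combination h3
      simp only [h2]
      rw [Finset.sum_ite_eq']
      split_ifs <;> norm_num
  calc ∑ s ∈ univ.erase (0 : k), ∑ t ∈ univ.erase (0 : k),
      (if A * s * t + B * s + C * t + E = 0 then (1 : ℝ) else 0)
      ≤ ∑ s ∈ univ.erase (0 : k), (1 + (if A * s + C = 0 then qq k - 1 else 0)) :=
        Finset.sum_le_sum hinner
    _ = (qq k - 1) + ∑ s ∈ univ.erase (0 : k), (if s = -C / A then qq k - 1 else 0) := by
        rw [Finset.sum_add_distrib, Finset.sum_const, nsmul_eq_mul, mul_one, hcard]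
        congr 1
        apply Finset.sum_congr rfl
        intro s _
        congr 1
        rw [eq_div_iff hA]
        apply propext
        constructor
        · intro h
          linear_combination h
        · intro h
          linear_combination h
    _ ≤ (qq k - 1) + (qq k - 1) := by
        rw [Finset.sum_ite_eq']
        split_ifs
        · exact le_refl _
        · linarith
    _ = 2 * (qq k - 1) := by ring

open Classical in
theorem count_lemma (a : Tup N k → ℝ) (ha : TInv a) (x y : Fin N → k) (j l : Fin N)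
    (hjl : x j * y l - x l * y j ≠ 0) (hs : ∀ χ, a χ ≠ 0 → ¬ par (χ j) (χ l)) :
    ∑ χ, (if par (∑ i, x i • χ i) (∑ i, y i • χ i) then a χ ^ 2 else 0) ≤
      2 / (qq k - 1) * nr a := by
  have hjl' : j ≠ l := by
    rintro rfl
    exact hjl (by ring)
  have hcard : ((univ.erase (0 : k)).card : ℝ) = qq k - 1 := by
    rw [Finset.card_erase_of_mem (Finset.mem_univ _), Finset.card_univ, qq]
    have h1 : 1 ≤ Fintype.card k := Fintype.card_pos
    push_cast [h1]
    ring
  have hQ : (0 : ℝ) < qq k - 1 := by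
    have h1 : 1 < Fintype.card k := Fintype.one_lt_card
    have h2 : (1 : ℝ) < qq k := by
      rw [qq]
      exact_mod_cast h1
    linarith
  -- the scaled tuple
  let c : k → k → Fin N → k := fun s t => Function.update (Function.update (fun _ => 1) j s) l t
  have hc : ∀ s t, s ≠ 0 → t ≠ 0 → ∀ i, c s t i ≠ 0 := by
    intro s t h1 h2 i
    by_cases hil : i = l
    · subst hil
      simpa [c] using h2
    · by_cases hij : i = j
      · subst hij
        simpa [c, hil] using h1
      · simp [c, hil, hij]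
  set L := ∑ χ, (if par (∑ i, x i • χ i) (∑ i, y i • χ i) then a χ ^ 2 else 0) with hL
  have h1 : ∀ s ∈ univ.erase (0 : k), ∀ t ∈ univ.erase (0 : k),
      L = ∑ χ, (if par (∑ i, x i • (c s t i • χ i)) (∑ i, y i • (c s t i • χ i)) then (1 : ℝ)
        else 0) * a χ ^ 2 := by
    intro s hs' t ht'
    have hs0 := (Finset.mem_erase.1 hs').1
    have ht0 := (Finset.mem_erase.1 ht').1
    rw [hL, ← s3_sum_scale (c s t) (hc s t hs0 ht0)]
    apply Finset.sum_congr rfl
    intro χ _
    rw [ha (c s t) (hc s t hs0 ht0) χ, ite_mul, one_mul, zero_mul]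
  -- the expansion of the sums
  have hsum : ∀ (z : Fin N → k) (s t : k) (χ : Tup N k), ∑ i, z i • (c s t i • χ i) =
      (z j * s) • χ j + (z l * t) • χ l + ∑ i ∈ (univ.erase j).erase l, z i • χ i := by
    intro z s t χ
    rw [← Finset.add_sum_erase univ _ (Finset.mem_univ j),
      ← Finset.add_sum_erase (univ.erase j) _
        (Finset.mem_erase.2 ⟨hjl'.symm, Finset.mem_univ l⟩)]
    have e1 : c s t j = s := by
      simp [c, hjl']
    have e2 : c s t l = t := by
      simp [c]
    rw [e1, e2, smul_smul, smul_smul, add_assoc]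
    congr 2
    apply Finset.sum_congr rfl
    intro i hi
    rw [Finset.mem_erase, Finset.mem_erase] at hi
    have e3 : c s t i = 1 := by
      simp [c, hi.1, hi.2.1]
    rw [e3, one_smul]
  have h2 : ∀ χ, (∑ s ∈ univ.erase (0 : k), ∑ t ∈ univ.erase (0 : k),
      (if par (∑ i, x i • (c s t i • χ i)) (∑ i, y i • (c s t i • χ i)) then (1 : ℝ)
        else 0)) * a χ ^ 2 ≤ 2 * (qq k - 1) * a χ ^ 2 := by
    intro χ
    by_cases hχ : a χ = 0
    · rw [hχ]
      simp
    · apply mul_le_mul_of_nonneg_right _ (sq_nonneg _)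
      have hω : (χ j).1 * (χ l).2 - (χ j).2 * (χ l).1 ≠ 0 := by
        intro h
        exact hs χ hχ (sub_eq_zero.1 h)
      set Rx := ∑ i ∈ (univ.erase j).erase l, x i • χ i with hRx
      set Ry := ∑ i ∈ (univ.erase j).erase l, y i • χ i with hRy
      have h3 := s3_count ((x j * y l - x l * y j) * ((χ j).1 * (χ l).2 - (χ j).2 * (χ l).1))
        (x j * ((χ j).1 * Ry.2 - (χ j).2 * Ry.1) - y j * ((χ j).1 * Rx.2 - (χ j).2 * Rx.1))
        (x l * ((χ l).1 * Ry.2 - (χ l).2 * Ry.1) - y l * ((χ l).1 * Rx.2 - (χ l).2 * Rx.1))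
        (Rx.1 * Ry.2 - Rx.2 * Ry.1) (mul_ne_zero hjl hω)
      refine le_trans (le_of_eq ?_) h3
      apply Finset.sum_congr rfl
      intro s _
      apply Finset.sum_congr rfl
      intro t _
      have h4 : par (∑ i, x i • (c s t i • χ i)) (∑ i, y i • (c s t i • χ i)) ↔
          (x j * y l - x l * y j) * ((χ j).1 * (χ l).2 - (χ j).2 * (χ l).1) * s * t +
          (x j * ((χ j).1 * Ry.2 - (χ j).2 * Ry.1) -
            y j * ((χ j).1 * Rx.2 - (χ j).2 * Rx.1)) * s +
          (x l * ((χ l).1 * Ry.2 - (χ l).2 * Ry.1) -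
            y l * ((χ l).1 * Rx.2 - (χ l).2 * Rx.1)) * t + (Rx.1 * Ry.2 - Rx.2 * Ry.1) = 0 := by
        rw [hsum, hsum, ← hRx, ← hRy, par]
        simp only [Prod.fst_add, Prod.snd_add, Prod.smul_fst, Prod.smul_snd, smul_eq_mul]
        constructor
        · intro h
          linear_combination h
        · intro h
          linear_combination h
      by_cases h5 : par (∑ i, x i • (c s t i • χ i)) (∑ i, y i • (c s t i • χ i))
      · rw [if_pos h5, if_pos (h4.1 h5)]
      · rw [if_neg h5, if_neg fun h => h5 (h4.2 h)]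
  have h3 : (qq k - 1) ^ 2 * L ≤ 2 * (qq k - 1) * nr a := by
    calc (qq k - 1) ^ 2 * L = ∑ s ∈ univ.erase (0 : k), ∑ t ∈ univ.erase (0 : k), L := by
          rw [Finset.sum_const, Finset.sum_const, nsmul_eq_mul, nsmul_eq_mul, hcard]
          ring
      _ = ∑ s ∈ univ.erase (0 : k), ∑ t ∈ univ.erase (0 : k), ∑ χ,
          (if par (∑ i, x i • (c s t i • χ i)) (∑ i, y i • (c s t i • χ i)) then (1 : ℝ)
            else 0) * a χ ^ 2 :=
          Finset.sum_congr rfl fun s hs' => Finset.sum_congr rfl fun t ht' => h1 s hs' t ht'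
      _ = ∑ s ∈ univ.erase (0 : k), ∑ χ, ∑ t ∈ univ.erase (0 : k),
          (if par (∑ i, x i • (c s t i • χ i)) (∑ i, y i • (c s t i • χ i)) then (1 : ℝ)
            else 0) * a χ ^ 2 := Finset.sum_congr rfl fun s _ => Finset.sum_comm
      _ = ∑ χ, (∑ s ∈ univ.erase (0 : k), ∑ t ∈ univ.erase (0 : k),
          (if par (∑ i, x i • (c s t i • χ i)) (∑ i, y i • (c s t i • χ i)) then (1 : ℝ)
            else 0)) * a χ ^ 2 := by
          rw [Finset.sum_comm]
          apply Finset.sum_congr rfl
          intro χ _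
          rw [Finset.sum_mul]
          apply Finset.sum_congr rfl
          intro s _
          rw [Finset.sum_mul]
      _ ≤ ∑ χ, 2 * (qq k - 1) * a χ ^ 2 := Finset.sum_le_sum fun χ _ => h2 χ
      _ = 2 * (qq k - 1) * nr a := by rw [← Finset.mul_sum, nr]
  rw [div_mul_eq_mul_div, le_div_iff₀ hQ]
  have h4 : (qq k - 1) * (L * (qq k - 1)) ≤ (qq k - 1) * (2 * nr a) := by
    nlinarith [h3]
  exact le_of_mul_le_mul_left h4 hQ

end

end PL
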